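import Pool.Agent.H48.CE.Targets

/-!
# bde_modules, DSP: the degree sum over a separation (helper5)
-/

set_option autoImplicit false

namespace Pool.Agent.H5.BDE

open Pool.Agent.H48.CE

theorem nb_le {V : Type} [DecidableEq V] (G : SimpleGraph V) (S A B : Finset V)
    (hcov : ∀ x ∈ S, x ∈ A ∨ x ∈ B) (hsep : ∀ x ∈ A, x ∉ B → ∀ y ∈ B, y ∉ A → ¬ G.Adj x y)
    (v : V) (hv : v ∈ S) :
    (nb G S v).card ≤ (if v ∈ A then (nb G A v).card else 0) +
      (if v ∈ B then (nb G B v).card else 0) := by
  by_cases hA : v ∈ A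
  · by_cases hB : v ∈ B
    · rw [if_pos hA, if_pos hB]
      refine (Finset.card_le_card ?_).trans (Finset.card_union_le (nb G A v) (nb G B v))
      intro w hw
      rw [mem_nb] at hw
      rw [Finset.mem_union, mem_nb, mem_nb]
      rcases hcov w hw.1 with h | h
      · exact Or.inl ⟨h, hw.2⟩
      · exact Or.inr ⟨h, hw.2⟩
    · rw [if_pos hA, if_neg hB, add_zero]
      apply Finset.card_le_card
      intro w hw
      rw [mem_nb] at hw ⊢
      refine ⟨?_, hw.2⟩
      by_contra hwA
      rcases hcov w hw.1 with h | h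
      · exact hwA h
      · exact hsep v hA hB w h hwA hw.2
  · have hB : v ∈ B := (hcov v hv).resolve_left hA
    rw [if_neg hA, if_pos hB, zero_add]
    apply Finset.card_le_card
    intro w hw
    rw [mem_nb] at hw ⊢
    refine ⟨?_, hw.2⟩
    by_contra hwB
    rcases hcov w hw.1 with h | h
    · exact hsep w h hwB v hB hA hw.2.symm
    · exact hwB h

theorem pf_DSP : T_DSP := by
  classical
  intro V G S A B hA hB hcov hone hsep hAS hBS
  have hun : A ∪ B = S := by
    apply subset_antisymm (Finset.union_subset hA hB)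
    intro x hx
    exact Finset.mem_union.2 (hcov x hx)
  have hin : (A ∩ B).card ≤ 1 := by
    rw [Finset.card_le_one]
    intro x hx y hy
    rw [Finset.mem_inter] at hx hy
    exact hone x hx.1 hx.2 y hy.1 hy.2
  have hcard := Finset.card_union_add_card_inter A B
  rw [hun] at hcard
  have hAss : A ⊂ S := lt_of_le_of_ne hA hAS
  have hBss : B ⊂ S := lt_of_le_of_ne hB hBS
  refine ⟨?_, by omega, Finset.card_lt_card hAss, Finset.card_lt_card hBss, ?_, ?_⟩
  · unfold D
    refine (Finset.sum_le_sum fun v hv => nb_le G S A B hcov hsep v hv).trans ?_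
    rw [Finset.sum_add_distrib, Finset.sum_ite_mem, Finset.sum_ite_mem,
      Finset.inter_eq_right.2 hA, Finset.inter_eq_right.2 hB]
  · obtain ⟨x, hx, hx'⟩ := Finset.exists_of_ssubset hBss
    exact ⟨x, (hcov x hx).resolve_right hx'⟩
  · obtain ⟨x, hx, hx'⟩ := Finset.exists_of_ssubset hAss
    exact ⟨x, (hcov x hx).resolve_left hx'⟩

end Pool.Agent.H5.BDE
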