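import Pool.Agent.H48.CE.Targets

/-!
# bde_modules, AVG: a component with at least the average ratio (helper5)
-/

set_option autoImplicit false

namespace Pool.Agent.H5.BDE

open Pool.Agent.H48.CE

/-- a largest subset with a property -/
theorem exists_max {V : Type} (X : Finset V) (P : Finset V → Prop) (h0 : P ∅) :
    ∃ I : Finset V, I ⊆ X ∧ P I ∧ ∀ J : Finset V, J ⊆ X → P J → J.card ≤ I.card := by
  classical
  obtain ⟨I, hI, hmax⟩ := Finset.exists_max_image (X.powerset.filter P) Finset.card
    ⟨∅, Finset.mem_filter.2 ⟨Finset.empty_mem_powerset X, h0⟩⟩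
  rw [Finset.mem_filter, Finset.mem_powerset] at hI
  exact ⟨I, hI.1, hI.2, fun J hJ hJi =>
    hmax J (Finset.mem_filter.2 ⟨Finset.mem_powerset.2 hJ, hJi⟩)⟩

/-- a largest independent subset -/
theorem exists_max_ind {V : Type} (G : SimpleGraph V) (X : Finset V) :
    ∃ I : Finset V, I ⊆ X ∧ (∀ x ∈ I, ∀ y ∈ I, ¬ G.Adj x y) ∧ Ind G X I.card :=
  exists_max X (fun I => ∀ x ∈ I, ∀ y ∈ I, ¬ G.Adj x y) (fun x hx => absurd hx (Finset.notMem_empty x))

theorem pf_AVG : T_AVG := by
  classical
  intro V G H t c
  generalize hn : H.card = n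
  induction n using Nat.strong_induction_on generalizing H t with
  | _ n ih =>
  intro hI hc
  by_cases hC : Conn G H
  · refine ⟨H, t, subset_rfl, ?_, hC, fun x _ y hy hy' => absurd hy hy', hI, by omega⟩
    rw [← Finset.card_pos]
    omega
  · unfold Conn at hC
    push Not at hC
    obtain ⟨X, hXH, hX0, hXne, hsep⟩ := hC
    obtain ⟨IX, hIX1, hIX2, hIX3⟩ := exists_max_ind G X
    obtain ⟨IY, hIY1, hIY2, hIY3⟩ := exists_max_ind G (H \ X)
    have hcard : X.card + (H \ X).card = H.card := by
      rw [Finset.card_sdiff_of_subset hXH]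
      have := Finset.card_le_card hXH
      omega
    have hYpos : 0 < (H \ X).card := by
      rw [Finset.card_pos, Finset.sdiff_nonempty]
      intro h
      exact hXne (subset_antisymm hXH h)
    have hXpos : 0 < X.card := hX0.card_pos
    have hdisj : Disjoint IX IY := by
      rw [Finset.disjoint_left]
      intro x hx hx'
      exact (Finset.mem_sdiff.1 (hIY1 hx')).2 (hIX1 hx)
    have hun : IX.card + IY.card ≤ t := by
      rw [← Finset.card_union_of_disjoint hdisj]
      apply hI
      · exact Finset.union_subset (hIX1.trans hXH) (hIY1.trans Finset.sdiff_subset)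
      · intro x hx y hy
        rw [Finset.mem_union] at hx hy
        rcases hx with hx | hx <;> rcases hy with hy | hy
        · exact hIX2 x hx y hy
        · exact hsep x (hIX1 hx) y (Finset.mem_sdiff.1 (hIY1 hy)).1 (Finset.mem_sdiff.1 (hIY1 hy)).2
        · intro hadj
          exact hsep y (hIX1 hy) x (Finset.mem_sdiff.1 (hIY1 hx)).1 (Finset.mem_sdiff.1 (hIY1 hx)).2
            hadj.symm
        · exact hIY2 x hx y hy
    have hor : IX.card * c + 1 ≤ X.card ∨ IY.card * c + 1 ≤ (H \ X).card := by
      by_contra hcon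
      push Not at hcon
      have h1 : (IX.card + IY.card) * c ≤ t * c := Nat.mul_le_mul_right c hun
      have h2 : (IX.card + IY.card) * c = IX.card * c + IY.card * c := by ring
      omega
    rcases hor with h | h
    · obtain ⟨C, a, h1, h2, h3, h4, h5, h6⟩ := ih X.card (by omega) X IX.card rfl hIX3 h
      refine ⟨C, a, h1.trans hXH, h2, h3, ?_, h5, h6⟩
      intro x hx y hy hyC
      by_cases hyX : y ∈ X
      · exact h4 x hx y hyX hyC
      · exact hsep x (h1 hx) y hy hyX
    · obtain ⟨C, a, h1, h2, h3, h4, h5, h6⟩ := ih (H \ X).card (by omega) (H \ X) IY.card rfl hIY3 h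
      refine ⟨C, a, h1.trans Finset.sdiff_subset, h2, h3, ?_, h5, h6⟩
      intro x hx y hy hyC
      by_cases hyX : y ∈ X
      · intro hadj
        have := Finset.mem_sdiff.1 (h1 hx)
        exact hsep y hyX x this.1 this.2 hadj.symm
      · exact h4 x hx y (Finset.mem_sdiff.2 ⟨hy, hyX⟩) hyC

end Pool.Agent.H5.BDE
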