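import Pool.Agent.H48.CE.Targets

/-!
# bde_modules, BND: the bound for the number of edges (helper5)
-/

set_option autoImplicit false

namespace Pool.Agent.H5.BDE

open Pool.Agent.H48.CE

/-- a cycle inside `S` has at most `|S|` edges -/
theorem cycle_length_le {V : Type} (G : SimpleGraph V) (S : Finset V) (v : V) (c : G.Walk v v)
    (hc : c.IsCycle) (hS : ∀ x ∈ c.support, x ∈ S) : c.length ≤ S.card := by
  classical
  have h1 : c.support.tail.Nodup := hc.support_nodup
  have h2 : c.support.tail.length = c.length := by
    rw [List.length_tail, SimpleGraph.Walk.length_support]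
    omega
  rw [← h2, ← List.toFinset_card_of_nodup h1]
  apply Finset.card_le_card
  intro x hx
  rw [List.mem_toFinset] at hx
  exact hS x (List.mem_of_mem_tail hx)

theorem nb_sub {V : Type} [DecidableEq V] (G : SimpleGraph V) (S : Finset V) (v : V) :
    nb G S v ⊆ S.erase v := by
  intro w hw
  rw [mem_nb] at hw
  exact Finset.mem_erase.2 ⟨hw.2.ne.symm, hw.1⟩

theorem nb_card {V : Type} (G : SimpleGraph V) (S : Finset V) (v : V) (hv : v ∈ S) :
    (nb G S v).card ≤ S.card - 1 := by
  classical
  have := Finset.card_le_card (nb_sub G S v)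
  rwa [Finset.card_erase_of_mem hv] at this

theorem D_le {V : Type} (G : SimpleGraph V) (S : Finset V) : D G S ≤ S.card * (S.card - 1) := by
  unfold D
  have := Finset.sum_le_card_nsmul S (fun v => (nb G S v).card) (S.card - 1)
    (fun v hv => nb_card G S v hv)
  simpa [smul_eq_mul] using this

/-- equality in the trivial bound -/
theorem adj_of_eq {V : Type} (G : SimpleGraph V) (S : Finset V)
    (h : D G S = S.card * (S.card - 1)) : ∀ x ∈ S, ∀ y ∈ S, x ≠ y → G.Adj x y := by
  classical
  have h1 : ∑ v ∈ S, (nb G S v).card = ∑ _v ∈ S, (S.card - 1) := by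
    rw [Finset.sum_const, smul_eq_mul]
    exact h
  have h2 := (Finset.sum_eq_sum_iff_of_le (fun v hv => nb_card G S v hv)).1 h1
  intro x hx y hy hxy
  have h3 : nb G S x = S.erase x := by
    apply Finset.eq_of_subset_of_card_le (nb_sub G S x)
    rw [Finset.card_erase_of_mem hx, h2 x hx]
  have h4 : y ∈ nb G S x := by
    rw [h3]
    exact Finset.mem_erase.2 ⟨hxy.symm, hy⟩
  exact (mem_nb.1 h4).2

theorem pf_BND (hSEP : T_SEP) (hDSP : T_DSP) : T_BND := by
  classical
  intro V G d hdeg S
  generalize hn : S.card = n
  induction n using Nat.strong_induction_on generalizing S with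
  | _ n ih =>
  intro hS0
  have hn1 : 1 ≤ n := by
    rw [← hn]
    exact hS0.card_pos
  by_cases hTC : TC G S
  · have hD1 : D G S ≤ n * d := by
      unfold D
      have := Finset.sum_le_card_nsmul S (fun v => (nb G S v).card) d
        (fun v hv => hdeg S v hTC hv)
      rwa [smul_eq_mul, hn] at this
    have hD2 : D G S ≤ n * (n - 1) := by
      have := D_le G S
      rwa [hn] at this
    have hlen : ∀ (v : V) (c : G.Walk v v), c.IsCycle → (∀ x ∈ c.support, x ∈ S) →
        c.length ≤ n := by
      intro v c hc hcS
      rw [← hn]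
      exact cycle_length_le G S v c hc hcS
    obtain ⟨m, rfl⟩ : ∃ m, n = m + 1 := ⟨n - 1, by omega⟩
    rw [Nat.add_sub_cancel] at hD2
    refine ⟨?_, ?_, ?_⟩
    · rcases le_or_gt (d + 1) (m + 1) with h | h
      · nlinarith
      · nlinarith
    · intro v c hc hcS
      have hl := hlen v c hc hcS
      rcases le_or_gt (m + 1) (d + 1) with h | h
      · left
        omega
      · right
        nlinarith
    · intro heq v c hc hcS
      have hl := hlen v c hc hcS
      have hl3 := hc.three_le_length
      have e1 : D G S = (d + 1) * m := by nlinarith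
      have e2 : m ≤ d := by nlinarith
      have e3 : d + 1 ≤ m + 1 := by
        have : (d + 1) * m ≤ (m + 1) * m := by rw [← e1]; exact hD2
        exact Nat.le_of_mul_le_mul_right this (by omega)
      have e4 : m = d := by omega
      subst e4
      refine ⟨hl, ?_⟩
      have e5 := adj_of_eq G S (by rw [hn, Nat.add_sub_cancel, e1])
      intro x hx y hy hxy
      exact e5 x (hcS x hx) y (hcS y hy) hxy
  · unfold TC at hTC
    push Not at hTC
    obtain ⟨A, B, hA, hB, hcov, hone, hsep, hAS, hBS⟩ := hTC
    obtain ⟨g1, g2, g3, g4, g5, g6⟩ := hDSP G S A B hA hB hcov hone hsep hAS hBS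
    rw [hn] at g2 g3 g4
    obtain ⟨a1, a2, a3⟩ := ih A.card g3 A rfl g5
    obtain ⟨b1, b2, b3⟩ := ih B.card g4 B rfl g6
    have hm : (d + 1) * (A.card + B.card) ≤ (d + 1) * (n + 1) := Nat.mul_le_mul_left _ g2
    have hcy : ∀ (v : V) (c : G.Walk v v), c.IsCycle → (∀ x ∈ c.support, x ∈ S) →
        (∀ x ∈ c.support, x ∈ A) ∨ (∀ x ∈ c.support, x ∈ B) := fun v c hc hcS =>
      hSEP G A B hone hsep v c hc (fun x hx => hcov x (hcS x hx))
    rw [Nat.mul_add, Nat.mul_add] at hm
    generalize (d + 1) * A.card = x at a1 a2 a3 hm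
    generalize (d + 1) * B.card = y at b1 b2 b3 hm
    generalize (d + 1) * n = z at hm ⊢
    refine ⟨by omega, ?_, ?_⟩
    · intro v c hc hcS
      rcases hcy v c hc hcS with h | h
      · rcases a2 v c hc h with h' | h'
        · exact Or.inl h'
        · right
          omega
      · rcases b2 v c hc h with h' | h'
        · exact Or.inl h'
        · right
          omega
    · intro heq v c hc hcS
      rcases hcy v c hc hcS with h | h
      · exact a3 (by omega) v c hc h
      · exact b3 (by omega) v c hc h

end Pool.Agent.H5.BDE
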