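import Pool.Agent.H48.CE.Targets

/-!
# bde_modules, TWO: two disjoint subsets of a neighbourhood (helper5)
-/

set_option autoImplicit false

namespace Pool.Agent.H5.BDE

open Pool.Agent.H48.CE

/-- the cycle with `i + 1` vertices in `A` and `j + 1` vertices in `C` -/
theorem cycle_of {V : Type} (hCYC : T_CYC) (G : SimpleGraph V) (A C : Finset V) (v a c : V)
    (la lc w : List V) (hAv : ∀ x ∈ A, G.Adj v x) (hCv : ∀ x ∈ C, G.Adj v x)
    (hdis : ∀ x ∈ A, x ∉ C) (hla : Pth G A (a :: la)) (hlc : Pth G C (c :: lc))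
    (hw : ∀ x ∈ w, x ≠ v ∧ x ∉ A ∧ x ∉ C) (hwn : (a :: (w ++ [c])).Nodup)
    (hwc : (a :: (w ++ [c])).IsChain G.Adj) (i j : ℕ) (hi : i ≤ la.length) (hj : j ≤ lc.length) :
    ∃ x : V, ∃ cy : G.Walk x x, cy.IsCycle ∧ cy.length = i + j + w.length + 3 := by
  have hvA : v ∉ A := fun h => (hAv v h).ne rfl
  have hvC : v ∉ C := fun h => (hCv v h).ne rfl
  obtain ⟨-, hla2, hla3, hla4⟩ := hla
  obtain ⟨-, hlc2, hlc3, hlc4⟩ := hlc
  have hX1 : ∀ x ∈ (a :: la).take (i + 1), x ∈ A := fun x hx => hla4 x (List.mem_of_mem_take hx)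
  have hY1 : ∀ x ∈ (c :: lc).take (j + 1), x ∈ C := fun x hx => hlc4 x (List.mem_of_mem_take hx)
  have hX2 : ((a :: la).take (i + 1)).Nodup := hla2.sublist (List.take_sublist _ _)
  have hY2 : ((c :: lc).take (j + 1)).Nodup := hlc2.sublist (List.take_sublist _ _)
  have hX3 : ((a :: la).take (i + 1)).IsChain G.Adj := hla3.take _
  have hY3 : ((c :: lc).take (j + 1)).IsChain G.Adj := hlc3.take _
  have hXe : (a :: la).take (i + 1) = a :: la.take i := rfl
  have hYe : (c :: lc).take (j + 1) = c :: lc.take j := rfl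
  have hXl : (la.take i).length = i := by rw [List.length_take]; omega
  have hYl : (lc.take j).length = j := by rw [List.length_take]; omega
  rw [hXe] at hX1 hX2 hX3
  rw [hYe] at hY1 hY2 hY3
  generalize la.take i = X at hX1 hX2 hX3 hXl
  generalize lc.take j = Y at hY1 hY2 hY3 hYl
  -- the list
  have hM : (v :: (X.reverse ++ a :: (w ++ c :: Y))).IsChain G.Adj := by
    have h1 : (v :: (X.reverse ++ a :: (w ++ c :: Y))) = (v :: X.reverse) ++ a :: (w ++ c :: Y) := rfl
    rw [h1, List.isChain_split]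
    constructor
    · have h2 : v :: X.reverse ++ [a] = v :: (a :: X).reverse := by simp
      rw [h2, List.isChain_cons]
      constructor
      · intro y hy
        apply hAv
        apply hX1
        have := List.mem_of_mem_head? hy
        exact List.mem_reverse.1 this
      · rw [List.isChain_reverse]
        exact hX3.imp fun x y h => h.symm
    · have h2 : a :: (w ++ c :: Y) = (a :: w) ++ c :: Y := rfl
      rw [h2, List.isChain_split]
      exact ⟨hwc, hY3⟩
  have hN : (v :: (X.reverse ++ a :: (w ++ c :: Y))).Nodup := by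
    rw [List.nodup_cons]
    constructor
    · intro h
      rw [List.mem_append, List.mem_reverse, List.mem_cons, List.mem_append] at h
      rcases h with h | h | h | h
      · exact hvA (hX1 v (List.mem_cons_of_mem _ h))
      · exact hvA (hX1 v (by rw [h]; exact List.mem_cons_self))
      · exact (hw v h).1 rfl
      · exact hvC (hY1 v h)
    · have h1 : X.reverse ++ a :: (w ++ c :: Y) = (a :: X).reverse ++ (w ++ c :: Y) := by simp
      rw [h1, List.nodup_append', List.nodup_append', List.nodup_reverse]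
      have hwn2 : w.Nodup := by
        rw [List.nodup_cons, List.nodup_append'] at hwn
        exact hwn.2.1
      refine ⟨hX2, ⟨hwn2, hY2, ?_⟩, ?_⟩
      · intro x hx hx'
        exact (hw x hx).2.2 (hY1 x hx')
      · intro x hx hx'
        rw [List.mem_reverse] at hx
        rw [List.mem_append] at hx'
        rcases hx' with h | h
        · exact (hw x h).2.1 (hX1 x hx)
        · exact hdis x (hX1 x hx) (hY1 x h)
  -- the last vertex
  obtain ⟨Y', y, hY'⟩ : ∃ (Y' : List V) (y : V), c :: Y = Y' ++ [y] :=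
    ⟨(c :: Y).dropLast, (c :: Y).getLast (by simp), (List.dropLast_append_getLast (by simp)).symm⟩
  have hyC : y ∈ C := hY1 y (by rw [hY']; simp)
  have hY'l : Y'.length = j := by
    have := congrArg List.length hY'
    simp only [List.length_cons, List.length_append, List.length_nil] at this
    omega
  have hsplit : X.reverse ++ a :: (w ++ c :: Y) = (X.reverse ++ a :: (w ++ Y')) ++ [y] := by
    rw [hY']
    simp
  rw [hsplit] at hM hN
  obtain ⟨x, cy, h1, h2⟩ := hCYC G v (X.reverse ++ a :: (w ++ Y')) y (by simp) hN hM (hCv y hyC).symm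
  refine ⟨x, cy, h1, ?_⟩
  rw [h2]
  simp only [List.length_append, List.length_reverse, List.length_cons]
  omega

theorem pf_TWO (hCYC : T_CYC) (hSPA : T_SPA) : T_TWO := by
  intro V G S A C v k p q hTC hv hAS hCS hA0 hC0 hAv hCv hdis hPA hPC hp hq hk
  have hvA : v ∉ A := fun h => (hAv v h).ne rfl
  have hvC : v ∉ C := fun h => (hCv v h).ne rfl
  obtain ⟨a, c, w, ha, hc, hw, hwn, hwc⟩ := hSPA G S A C v hTC hv hAS hCS hA0 hC0 hvA hvC hdis
  obtain ⟨la, hla, hlap⟩ := hPA a ha
  obtain ⟨lc, hlc, hlcq⟩ := hPC c hc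
  refine ⟨(w.length + 4) / 2, ?_⟩
  intro i0 hi0
  obtain ⟨s, hs⟩ : ∃ s, 2 * ((w.length + 4) / 2) + 2 * i0 = s + (w.length + 1) :=
    ⟨2 * ((w.length + 4) / 2) + 2 * i0 - (w.length + 1), by omega⟩
  have hs2 : 2 ≤ s := by omega
  have hs3 : s ≤ 2 * k + 1 := by omega
  obtain ⟨x, cy, h1, h2⟩ := cycle_of hCYC G A C v a c la lc w hAv hCv hdis hla hlc
    (fun x hx => (hw x hx).2) hwn hwc (min (s - 1) p - 1) (s - min (s - 1) p - 1) (by omega)
    (by omega)
  refine ⟨x, cy, h1, ?_⟩
  rw [h2, hs]
  omega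

end Pool.Agent.H5.BDE
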