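import Pool.Agent.H48.CE.Targets

/-!
# bde_modules, SPA: a path between two disjoint sets which avoids a vertex (helper5)
-/

set_option autoImplicit false

namespace Pool.Agent.H5.BDE

open Pool.Agent.H48.CE

theorem exists_dup {V : Type} (l : List V) (h : ¬ l.Nodup) :
    ∃ (x : V) (q1 q2 q3 : List V), l = q1 ++ x :: (q2 ++ x :: q3) := by
  induction l with
  | nil => exact absurd List.nodup_nil h
  | cons y l ih =>
    by_cases hy : y ∈ l
    · obtain ⟨q2, q3, h1⟩ := List.append_of_mem hy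
      exact ⟨y, [], q2, q3, by rw [h1]; rfl⟩
    · have h2 : ¬ l.Nodup := fun h3 => h (List.nodup_cons.2 ⟨hy, h3⟩)
      obtain ⟨x, q1, q2, q3, h4⟩ := ih h2
      exact ⟨x, y :: q1, q2, q3, by rw [h4]; rfl⟩

/-- shortening a list -/
theorem shorten {V : Type} (G : SimpleGraph V) (S A C : Finset V) (v : V)
    (hdis : ∀ x ∈ A, x ∉ C) (n : ℕ) : ∀ (a c : V) (q : List V), q.length = n → a ∈ A → c ∈ C →
    (∀ x ∈ q, x ∈ S ∧ x ≠ v) → (a :: (q ++ [c])).IsChain G.Adj →
    ∃ (a c : V) (q : List V), a ∈ A ∧ c ∈ C ∧ (∀ x ∈ q, x ∈ S ∧ x ≠ v ∧ x ∉ A ∧ x ∉ C) ∧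
      (a :: (q ++ [c])).Nodup ∧ (a :: (q ++ [c])).IsChain G.Adj := by
  induction n using Nat.strong_induction_on with
  | _ n ih =>
  intro a c q hn ha hc hq hch
  by_cases hA : ∃ x ∈ q, x ∈ A
  · obtain ⟨x, hx, hxA⟩ := hA
    obtain ⟨q1, q2, rfl⟩ := List.append_of_mem hx
    rw [List.length_append, List.length_cons] at hn
    refine ih q2.length (by omega) x c q2 rfl hxA hc (fun y hy => hq y (by simp [hy])) ?_
    have e : a :: (q1 ++ x :: q2 ++ [c]) = (a :: q1) ++ x :: (q2 ++ [c]) := by simp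
    rw [e, List.isChain_split] at hch
    exact hch.2
  by_cases hC : ∃ x ∈ q, x ∈ C
  · obtain ⟨x, hx, hxC⟩ := hC
    obtain ⟨q1, q2, rfl⟩ := List.append_of_mem hx
    rw [List.length_append, List.length_cons] at hn
    refine ih q1.length (by omega) a x q1 rfl ha hxC (fun y hy => hq y (by simp [hy])) ?_
    have e : a :: (q1 ++ x :: q2 ++ [c]) = (a :: q1) ++ x :: (q2 ++ [c]) := by simp
    rw [e, List.isChain_split] at hch
    exact hch.1
  by_cases hD : q.Nodup
  · push Not at hA hC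
    refine ⟨a, c, q, ha, hc, fun x hx => ⟨(hq x hx).1, (hq x hx).2, hA x hx, hC x hx⟩, ?_, hch⟩
    rw [List.nodup_cons, List.nodup_append']
    refine ⟨?_, hD, List.nodup_singleton c, ?_⟩
    · intro h
      rw [List.mem_append, List.mem_singleton] at h
      rcases h with h | h
      · exact hA a h ha
      · exact hdis a ha (h ▸ hc)
    · intro x hx hx'
      rw [List.mem_singleton] at hx'
      exact hC x hx (hx' ▸ hc)
  · obtain ⟨x, q1, q2, q3, rfl⟩ := exists_dup q hD
    simp only [List.length_append, List.length_cons] at hn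
    refine ih (q1 ++ x :: q3).length (by simp only [List.length_append, List.length_cons]; omega)
      a c (q1 ++ x :: q3) rfl ha hc ?_ ?_
    · intro y hy
      apply hq
      simp only [List.mem_append, List.mem_cons] at hy ⊢
      tauto
    · have e : a :: (q1 ++ x :: (q2 ++ x :: q3) ++ [c]) =
          (a :: q1) ++ x :: (q2 ++ x :: (q3 ++ [c])) := by simp
      rw [e, List.isChain_split] at hch
      obtain ⟨h1, h2⟩ := hch
      have e2 : x :: (q2 ++ x :: (q3 ++ [c])) = (x :: q2) ++ x :: (q3 ++ [c]) := rfl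
      rw [e2, List.isChain_split] at h2
      have e3 : a :: (q1 ++ x :: q3 ++ [c]) = (a :: q1) ++ x :: (q3 ++ [c]) := by simp
      rw [e3, List.isChain_split]
      exact ⟨h1, h2.2⟩

theorem pf_SPA : T_SPA := by
  classical
  intro V G S A C v hTC hv hAS hCS hA0 hC0 hvA hvC hdis
  set R : Finset V := S.filter fun x => x ≠ v ∧ (x ∈ A ∨ ∃ a ∈ A, ∃ q : List V,
    (∀ y ∈ q, y ∈ S ∧ y ≠ v) ∧ (a :: (q ++ [x])).IsChain G.Adj) with hR
  have hmemR : ∀ x, x ∈ R ↔ x ∈ S ∧ x ≠ v ∧ (x ∈ A ∨ ∃ a ∈ A, ∃ q : List V,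
      (∀ y ∈ q, y ∈ S ∧ y ≠ v) ∧ (a :: (q ++ [x])).IsChain G.Adj) := by
    intro x
    rw [hR, Finset.mem_filter]
  have hAR : ∀ x ∈ A, x ∈ R := fun x hx =>
    (hmemR x).2 ⟨hAS hx, fun h => hvA (h ▸ hx), Or.inl hx⟩
  have hcl : ∀ x ∈ R, ∀ y ∈ S, y ≠ v → G.Adj x y → y ∈ R := by
    intro x hx y hy hyv hadj
    obtain ⟨hxS, hxv, hx'⟩ := (hmemR x).1 hx
    rw [hmemR]
    refine ⟨hy, hyv, Or.inr ?_⟩
    rcases hx' with hx' | ⟨a, ha, q, hq, hch⟩
    · exact ⟨x, hx', [], by simp, by simp [hadj]⟩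
    · refine ⟨a, ha, q ++ [x], ?_, ?_⟩
      · intro z hz
        rw [List.mem_append, List.mem_singleton] at hz
        rcases hz with hz | rfl
        · exact hq z hz
        · exact ⟨hxS, hxv⟩
      · have e : a :: (q ++ [x] ++ [y]) = (a :: q) ++ x :: [y] := by simp
        rw [e, List.isChain_split]
        exact ⟨hch, by simp [hadj]⟩
  by_cases hRC : ∃ x ∈ R, x ∈ C
  · obtain ⟨c, hcR, hcC⟩ := hRC
    obtain ⟨-, -, h | ⟨a, ha, q, hq, hch⟩⟩ := (hmemR c).1 hcR
    · exact absurd hcC (hdis c h)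
    · exact shorten G S A C v hdis q.length a c q rfl ha hcC hq hch
  · push Not at hRC
    exfalso
    have hRS : R ⊆ S := fun x hx => ((hmemR x).1 hx).1
    have k1 : ∀ x ∈ S, x ∈ insert v R ∨ x ∈ S \ R := by
      intro x hx
      by_cases hxR : x ∈ R
      · exact Or.inl (Finset.mem_insert_of_mem hxR)
      · exact Or.inr (Finset.mem_sdiff.2 ⟨hx, hxR⟩)
    have k2 : ∀ x ∈ insert v R, x ∈ S \ R → ∀ y ∈ insert v R, y ∈ S \ R → x = y := by
      intro x hx hx' y hy hy'
      rw [Finset.mem_insert] at hx hy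
      rw [Finset.mem_sdiff] at hx' hy'
      rw [hx.resolve_right hx'.2, hy.resolve_right hy'.2]
    have k3 : ∀ x ∈ insert v R, x ∉ S \ R → ∀ y ∈ S \ R, y ∉ insert v R → ¬ G.Adj x y := by
      intro x hx hx' y hy hy' hadj
      rw [Finset.mem_insert] at hx
      rw [Finset.mem_sdiff] at hx' hy
      rw [Finset.mem_insert, not_or] at hy'
      have hxR : x ∈ R := by
        rcases hx with rfl | hx
        · by_contra hcon
          exact hx' ⟨hv, hcon⟩
        · exact hx
      exact hy'.2 (hcl x hxR y hy.1 hy'.1 hadj)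
    rcases hTC (insert v R) (S \ R) (Finset.insert_subset hv hRS) Finset.sdiff_subset k1 k2 k3
      with h | h
    · obtain ⟨c, hc⟩ := hC0
      have h1 : c ∈ insert v R := by
        rw [h]
        exact hCS hc
      rw [Finset.mem_insert] at h1
      rcases h1 with h1 | h1
      · exact hvC (h1 ▸ hc)
      · exact hRC c h1 hc
    · obtain ⟨a, ha⟩ := hA0
      have h1 : a ∈ S \ R := by
        rw [h]
        exact hAS ha
      exact (Finset.mem_sdiff.1 h1).2 (hAR a ha)

end Pool.Agent.H5.BDE
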